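import Mathlib

set_option autoImplicit false

open Set Filter Topology Polynomial

namespace Pool.Agent.H.MP_9ec5dc_an

noncomputable def vp (n : ℕ) (w : Fin n → ℂ) : ℝ := ∏ i, ∏ j ∈ Finset.Ioi i, ‖w j - w i‖

lemma vp_eq (n : ℕ) (w : Fin n → ℂ) : vp n w = ‖(Matrix.vandermonde w).det‖ := by
  rw [Matrix.det_vandermonde, norm_prod]; simp [vp]

lemma vp_nonneg (n : ℕ) (w : Fin n → ℂ) : 0 ≤ vp n w := by rw [vp_eq]; exact norm_nonneg _

lemma det_bound {n : ℕ} (A : Matrix (Fin n) (Fin n) ℂ) (c : Fin n → ℝ)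
    (h : ∀ i j, ‖A i j‖ ≤ c j) : ‖A.det‖ ≤ n.factorial * ∏ j, c j := by
  rw [Matrix.det_apply]
  refine (norm_sum_le _ _).trans ?_
  have : ∀ σ : Equiv.Perm (Fin n), ‖Equiv.Perm.sign σ • ∏ i, A (σ i) i‖ ≤ ∏ j, c j := by
    intro σ
    have h1 : ‖Equiv.Perm.sign σ • ∏ i, A (σ i) i‖ = ‖∏ i, A (σ i) i‖ := by
      rcases Int.units_eq_one_or (Equiv.Perm.sign σ) with h | h <;> simp [h]
    rw [h1, norm_prod]
    exact Finset.prod_le_prod (fun _ _ => norm_nonneg _) (fun i _ => h _ _)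
  refine (Finset.sum_le_sum fun σ _ => this σ).trans ?_
  simp [Fintype.card_perm]

lemma sum_div (m l : ℕ) (hm : 0 < m) : m * l * l ≤ ∑ j : Fin (2 * m * l), (j : ℕ) / m := by
  rw [Fin.sum_univ_eq_sum_range (fun j => j / m)]
  calc m * l * l = ∑ _j ∈ Finset.Ico (m * l) (2 * m * l), l := by
        rw [Finset.sum_const, Nat.card_Ico, smul_eq_mul]; congr 1; rw [mul_assoc 2]; omega
    _ ≤ ∑ j ∈ Finset.Ico (m * l) (2 * m * l), j / m := Finset.sum_le_sum fun j hj => by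
        rw [Nat.le_div_iff_mul_le hm, mul_comm]; exact (Finset.mem_Ico.1 hj).1
    _ ≤ _ := Finset.sum_le_sum_of_subset fun j hj => Finset.mem_range.2 (Finset.mem_Ico.1 hj).2

lemma vp_le (E : Set ℂ) (R : ℝ) (hR : 1 ≤ R) (hE : ∀ z ∈ E, ‖z‖ ≤ R) (q : ℂ[X]) (hq : q.Monic)
    (m : ℕ) (hm : 0 < m) (hqm : q.natDegree = m) (s : ℝ) (s0 : 0 ≤ s) (s1 : s ≤ 1)
    (hs : ∀ z ∈ E, ‖q.eval z‖ ≤ s) (l : ℕ) (w : Fin (2 * m * l) → ℂ) (hw : ∀ i, w i ∈ E) :
    vp _ w ≤ ((((2 * m * l : ℕ) : ℝ) * R ^ m) ^ 2 * s ^ l) ^ (m * l) := by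
  rw [vp_eq, Matrix.det_eval_matrixOfPolynomials_eq_det_vandermonde w
    (fun j => q ^ ((j : ℕ) / m) * X ^ ((j : ℕ) % m)) (fun j => by
      rw [(hq.pow _).natDegree_mul (monic_X_pow _), hq.natDegree_pow, hqm, natDegree_X_pow]
      exact Nat.div_add_mod' _ _) (fun j => (hq.pow _).mul (monic_X_pow _))]
  refine (det_bound _ (fun j => s ^ ((j : ℕ) / m) * R ^ m) (fun i j => ?_)).trans ?_
  · simp only [Matrix.of_apply, eval_mul, eval_pow, eval_X, norm_mul, norm_pow]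
    refine mul_le_mul (pow_le_pow_left₀ (norm_nonneg _) (hs _ (hw i)) _) ?_ (by positivity)
      (by positivity)
    exact (pow_le_pow_left₀ (norm_nonneg _) (hE _ (hw i)) _).trans
      (pow_le_pow_right₀ hR (Nat.mod_lt _ hm).le)
  · rw [Finset.prod_mul_distrib, Finset.prod_pow_eq_pow_sum, Finset.prod_const, Finset.card_univ,
      Fintype.card_fin]
    have h1 : s ^ (∑ j : Fin (2 * m * l), (j : ℕ) / m) ≤ s ^ (m * l * l) :=
      pow_le_pow_of_le_one s0 s1 (sum_div m l hm)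
    have h2 : ((2 * m * l).factorial : ℝ) ≤ ((2 * m * l : ℕ) : ℝ) ^ (2 * m * l) := by
      exact_mod_cast Nat.factorial_le_pow _
    calc ((2 * m * l).factorial : ℝ) *
          (s ^ (∑ j : Fin (2 * m * l), (j : ℕ) / m) * (R ^ m) ^ (2 * m * l))
        ≤ ((2 * m * l : ℕ) : ℝ) ^ (2 * m * l) * (s ^ (m * l * l) * (R ^ m) ^ (2 * m * l)) := by
          gcongr
      _ = _ := by
          generalize ((2 * m * l : ℕ) : ℝ) = x
          ring

noncomputable def dn (E : Set ℂ) (n : ℕ) : ℝ :=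
  (sSup (vp n '' {w | ∀ i, w i ∈ E})) ^ ((2 : ℝ) / ((n : ℝ) * ((n : ℝ) - 1)))

lemma sup_nonneg (E : Set ℂ) (n : ℕ) : 0 ≤ sSup (vp n '' {w | ∀ i, w i ∈ E}) :=
  Real.sSup_nonneg (by rintro _ ⟨w, -, rfl⟩; exact vp_nonneg _ _)

lemma cheb (E : Set ℂ) (hE : IsCompact E) (hd : Tendsto (dn E) atTop (𝓝 1)) (q : ℂ[X])
    (hq : q.Monic) (hm : 0 < q.natDegree) (s : ℝ) (s0 : 0 ≤ s)
    (hs : ∀ z ∈ E, ‖q.eval z‖ ≤ s) : 1 ≤ s := by
  by_contra s1
  push Not at s1
  set m := q.natDegree with hqm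
  obtain ⟨R0, hR0⟩ := hE.isBounded.exists_norm_le
  set R := max R0 1
  set b : ℝ := (1 + s) / 2 with hb
  have b0 : 0 < b := by rw [hb]; linarith
  have b1 : b < 1 := by rw [hb]; linarith
  have b2 : s < b := by rw [hb]; linarith
  set a : ℝ := b ^ ((2 * m : ℕ) : ℝ)⁻¹ with ha
  have a0 : 0 < a := Real.rpow_pos_of_pos b0 _
  have a1 : a < 1 := Real.rpow_lt_one b0.le b1 (by positivity)
  have a2 : a ^ (2 * m) = b := Real.rpow_inv_natCast_pow b0.le (by omega)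
  have t1 : Tendsto (fun l : ℕ => 2 * m * l) atTop atTop :=
    tendsto_id.const_mul_atTop' (by omega)
  have e1 := (hd.comp t1).eventually (lt_mem_nhds a1)
  have t2 : Tendsto (fun l : ℕ => (2 * m * R ^ m) ^ 2 * ((l:ℝ) ^ 2 * (s / b) ^ l)) atTop
      (𝓝 ((2 * m * R ^ m) ^ 2 * 0)) :=
    (tendsto_pow_const_mul_const_pow_of_abs_lt_one 2 (by
      rw [abs_of_nonneg (by positivity), div_lt_one b0]; exact b2)).const_mul _
  rw [mul_zero] at t2
  have e2 := t2.eventually (gt_mem_nhds one_pos)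
  obtain ⟨l, ⟨h1, h2⟩, h3⟩ := ((e1.and e2).and (eventually_ge_atTop 1)).exists
  simp only [Function.comp, dn] at h1
  set k := 2 * m * l with hk
  have k2 : (2:ℝ) ≤ k := by
    have : 2 ≤ k := by rw [hk]; nlinarith
    exact_mod_cast this
  set S := sSup (vp k '' {w | ∀ i, w i ∈ E}) with hS
  have S0 : 0 ≤ S := sup_nonneg E k
  have S1 : S ≤ (((k : ℝ) * R ^ m) ^ 2 * s ^ l) ^ (m * l) := by
    refine Real.sSup_le ?_ (by positivity)
    rintro _ ⟨w, hw, rfl⟩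
    exact vp_le E R (le_max_right _ _) (fun z hz => (hR0 z hz).trans (le_max_left _ _)) q hq m hm
      rfl s s0 s1.le hs l w hw
  have kk : 0 < (k:ℝ) * ((k:ℝ) - 1) := by nlinarith
  have S2 : a ^ ((k:ℝ) * ((k:ℝ) - 1) / 2) ≤ S := by
    have := Real.rpow_le_rpow a0.le h1.le (z := (k:ℝ) * ((k:ℝ) - 1) / 2) (by positivity)
    rwa [← Real.rpow_mul S0, div_mul_div_cancel₀ kk.ne', div_self two_ne_zero, Real.rpow_one]
      at this
  have S3 : (b ^ l) ^ (m * l) ≤ a ^ ((k:ℝ) * ((k:ℝ) - 1) / 2) := by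
    rw [← a2, ← pow_mul, ← pow_mul, ← Real.rpow_natCast]
    refine Real.rpow_le_rpow_of_exponent_ge a0 a1.le ?_
    have : ((2 * m * (l * (m * l)) : ℕ) : ℝ) = (k:ℝ) * k / 2 := by rw [hk]; push_cast; ring
    rw [this]; nlinarith
  have S4 := le_of_pow_le_pow_left₀ (Nat.mul_pos hm h3).ne' (by positivity) (S3.trans (S2.trans S1))
  have S5 : ((k : ℝ) * R ^ m) ^ 2 * s ^ l =
      (2 * m * R ^ m) ^ 2 * ((l:ℝ) ^ 2 * (s / b) ^ l) * b ^ l := by
    rw [hk, div_pow]; push_cast; field_simp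
  rw [S5] at S4
  have : 0 < b ^ l := by positivity
  nlinarith

lemma funct (E : Set ℂ) (hE : IsCompact E) (hd : Tendsto (dn E) atTop (𝓝 1)) (a : ℕ) :
    ∃ L : ℂ[X] →ₗ[ℂ] ℂ, (∀ j, j < a → L (X ^ j) = 0) ∧ L (X ^ a) = 1 ∧
      ∀ (q : ℂ[X]) (M : ℝ), (∀ z ∈ E, ‖q.eval z‖ ≤ M) → ‖L q‖ ≤ M := by
  haveI : CompactSpace E := isCompact_iff_compactSpace.1 hE
  have hne : E.Nonempty := by
    rw [nonempty_iff_ne_empty]
    rintro rfl
    have := cheb _ hE hd X monic_X (by simp) 0 le_rfl (by simp)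
    linarith
  haveI : Nonempty E := hne.to_subtype
  set p : Seminorm ℂ ℂ[X] :=
    (normSeminorm ℂ C(E, ℂ)).comp (toContinuousMapOnAlgHom E).toLinearMap with hp
  have p1 : ∀ q : ℂ[X], ∀ z ∈ E, ‖q.eval z‖ ≤ p q := fun q z hz =>
    (toContinuousMapOnAlgHom E q).norm_coe_le_norm ⟨z, hz⟩
  have p2 : ∀ (q : ℂ[X]) (M : ℝ), (∀ z ∈ E, ‖q.eval z‖ ≤ M) → p q ≤ M := fun q M h =>
    (ContinuousMap.norm_le_of_nonempty _).2 fun z => h z z.2
  obtain ⟨L, hL1, hL2⟩ := Module.Dual.exists_extension_of_le_seminorm (degreeLE ℂ (a : WithBot ℕ))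
    ((lcoeff ℂ a).comp (Submodule.subtype _)) (p := p) (by
      rintro ⟨q, hq⟩
      show ‖q.coeff a‖ ≤ p q
      rcases eq_or_ne (q.coeff a) 0 with h0 | h0
      · rw [h0, norm_zero]; exact apply_nonneg _ _
      have hq' : q.natDegree ≤ a := natDegree_le_of_degree_le (mem_degreeLE.1 hq)
      have hdeg : q.natDegree = a := natDegree_eq_of_le_of_coeff_ne_zero hq' h0
      have hc := norm_pos_iff.2 h0
      rcases Nat.eq_zero_or_pos a with rfl | ha
      · obtain ⟨z, hz⟩ := hne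
        have := p1 q z hz
        rwa [eq_C_of_natDegree_eq_zero hdeg, eval_C, ← eq_C_of_natDegree_eq_zero hdeg] at this
      have hmon : (C (q.coeff a)⁻¹ * q).Monic := by
        apply monic_C_mul_of_mul_leadingCoeff_eq_one
        rw [leadingCoeff, hdeg, inv_mul_cancel₀ h0]
      have := cheb E hE hd _ hmon (by rw [natDegree_C_mul (inv_ne_zero h0), hdeg]; exact ha)
        (‖q.coeff a‖⁻¹ * p q) (mul_nonneg (by positivity) (apply_nonneg _ _)) (fun z hz => by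
          rw [eval_mul, eval_C, norm_mul, norm_inv]
          exact mul_le_mul_of_nonneg_left (p1 q z hz) (by positivity))
      rwa [le_inv_mul_iff₀ hc, mul_one] at this)
  refine ⟨L, fun j hj => ?_, ?_, fun q M h => (hL2 q).trans (p2 q M h)⟩
  · have := hL1 ⟨X ^ j, mem_degreeLE.2 (by rw [degree_X_pow]; exact_mod_cast hj.le)⟩
    rw [this]; simp [coeff_X_pow, hj.ne']
  · have := hL1 ⟨X ^ a, mem_degreeLE.2 (by rw [degree_X_pow])⟩
    rw [this]; simp

lemma tensor (E : Set ℂ) (L : ℕ → ℂ[X] →ₗ[ℂ] ℂ)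
    (hL : ∀ a (q : ℂ[X]) (M : ℝ), (∀ z ∈ E, ‖q.eval z‖ ≤ M) → ‖L a q‖ ≤ M) {ι : Type*}
    (T : Finset ι) (M : ℝ) (n : ℕ) : ∀ (α : Fin n → ℕ) (c : ι → ℂ) (β : ι → Fin n → ℕ),
      (∀ w : Fin n → ℂ, (∀ i, w i ∈ E) → ‖∑ t ∈ T, c t * ∏ i, w i ^ β t i‖ ≤ M) →
      ‖∑ t ∈ T, c t * ∏ i, L (α i) (X ^ β t i)‖ ≤ M := by
  induction n with
  | zero => intro α c β h; simpa using h Fin.elim0 (fun i => i.elim0)
  | succ n ih =>
    intro α c β h
    have h1 := ih (fun i => α i.succ) (fun t => c t * L (α 0) (X ^ β t 0)) (fun t i => β t i.succ)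
      (fun w hw => by
        have h2 := hL (α 0) (∑ t ∈ T, (c t * ∏ i, w i ^ β t i.succ) • X ^ β t 0) M (fun z hz => by
          have h3 := h (Fin.cons z w) (fun i => by
            refine Fin.cases ?_ (fun i => ?_) i
            · simpa using hz
            · simpa using hw i)
          simp only [Fin.prod_univ_succ, Fin.cons_zero, Fin.cons_succ] at h3
          rw [eval_finset_sum]
          convert h3 using 3 with t
          simp; ring)
        rw [map_sum] at h2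
        convert h2 using 3 with t
        rw [map_smul, smul_eq_mul]; ring)
    convert h1 using 3 with t
    rw [Fin.prod_univ_succ]; ring

lemma coeff_le (E : Set ℂ) (hE : IsCompact E) (hd : Tendsto (dn E) atTop (𝓝 1)) {n D : ℕ}
    (P : MvPolynomial (Fin n) ℂ) (hP : P.IsHomogeneous D) (M : ℝ)
    (hM : ∀ w : Fin n → ℂ, (∀ i, w i ∈ E) → ‖MvPolynomial.eval w P‖ ≤ M) (α : Fin n →₀ ℕ)
    (hα : α ∈ P.support) : ‖P.coeff α‖ ≤ M := by
  choose L h1 h2 h3 using funct E hE hd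
  have hdeg : ∀ β ∈ P.support, ∑ i, β i = D := fun β hβ => by
    by_contra h
    refine MvPolynomial.mem_support_iff.1 hβ (hP.coeff_eq_zero ?_)
    rwa [Finsupp.degree_eq_sum]
  have h4 := tensor E L h3 P.support M n α (fun β => P.coeff β) (fun β i => β i)
    (fun w hw => by rw [← MvPolynomial.eval_eq']; exact hM w hw)
  rw [Finset.sum_eq_single α] at h4
  · simpa [h2] using h4
  · intro β hβ hne
    obtain ⟨i, hi⟩ : ∃ i, β i < α i := by
      by_contra hcon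
      push Not at hcon
      apply hne
      ext i
      have := (Finset.sum_eq_sum_iff_of_le (fun i _ => hcon i)).1
        ((hdeg α hα).trans (hdeg β hβ).symm) i (Finset.mem_univ i)
      exact this.symm
    rw [Finset.prod_eq_zero (Finset.mem_univ i) (h1 _ _ hi), mul_zero]
  · intro h; exact absurd hα h

lemma torus_le (E : Set ℂ) (hE : IsCompact E) (hd : Tendsto (dn E) atTop (𝓝 1)) {n D : ℕ}
    (P : MvPolynomial (Fin n) ℂ) (hP : P.IsHomogeneous D) (M : ℝ) (M0 : 0 ≤ M)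
    (hM : ∀ w : Fin n → ℂ, (∀ i, w i ∈ E) → ‖MvPolynomial.eval w P‖ ≤ M) (u : Fin n → ℂ)
    (hu : ∀ i, ‖u i‖ = 1) : ‖MvPolynomial.eval u P‖ ≤ ((D:ℝ) + 1) ^ n * M := by
  classical
  rw [MvPolynomial.eval_eq']
  refine (norm_sum_le _ _).trans ((Finset.sum_le_card_nsmul _ _ M fun α hα => ?_).trans ?_)
  · rw [norm_mul, norm_prod]
    simp only [norm_pow, hu, one_pow, Finset.prod_const_one, mul_one]
    exact coeff_le E hE hd P hP M hM α hα
  · rw [nsmul_eq_mul]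
    gcongr
    have : P.support.card ≤ (Fintype.piFinset fun _ : Fin n => Finset.range (D + 1)).card := by
      refine Finset.card_le_card_of_injOn (fun α i => α i) (fun α hα => ?_)
        (fun α _ β _ h => DFunLike.coe_injective h)
      have h1 : ∑ i, α i = D := by
        by_contra h
        refine MvPolynomial.mem_support_iff.1 hα (hP.coeff_eq_zero ?_)
        rwa [Finsupp.degree_eq_sum]
      simp only [Finset.mem_coe, Fintype.mem_piFinset, Finset.mem_range]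
      intro i
      have := Finset.single_le_sum (f := fun i => α i) (fun _ _ => Nat.zero_le _) (Finset.mem_univ i)
      omega
    simp only [Fintype.card_piFinset, Finset.card_range, Finset.prod_const, Finset.card_univ,
      Fintype.card_fin] at this
    exact_mod_cast this

lemma torus_le' (E : Set ℂ) (hE : IsCompact E) (hd : Tendsto (dn E) atTop (𝓝 1)) {n D : ℕ}
    (P : MvPolynomial (Fin n) ℂ) (hP : P.IsHomogeneous D) (M : ℝ) (M0 : 0 ≤ M)
    (hM : ∀ w : Fin n → ℂ, (∀ i, w i ∈ E) → ‖MvPolynomial.eval w P‖ ≤ M) (u : Fin n → ℂ)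
    (hu : ∀ i, ‖u i‖ = 1) : ‖MvPolynomial.eval u P‖ ≤ M := by
  by_contra hcon
  push Not at hcon
  set A := ‖MvPolynomial.eval u P‖ with hA
  have A0 : 0 < A := M0.trans_lt hcon
  have t2 : Tendsto (fun k : ℕ => ((D:ℝ) + 1) ^ n * ((k:ℝ) ^ n * (M / A) ^ k)) atTop
      (𝓝 (((D:ℝ) + 1) ^ n * 0)) :=
    (tendsto_pow_const_mul_const_pow_of_abs_lt_one n (by
      rw [abs_of_nonneg (by positivity), div_lt_one A0]; exact hcon)).const_mul _
  rw [mul_zero] at t2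
  obtain ⟨k, h1, h2⟩ := ((t2.eventually (gt_mem_nhds one_pos)).and (eventually_ge_atTop 1)).exists
  have h3 := torus_le E hE hd (P ^ k) (hP.pow k) (M ^ k) (by positivity) (fun w hw => by
    rw [map_pow, norm_pow]; exact pow_le_pow_left₀ (norm_nonneg _) (hM w hw) _) u hu
  rw [map_pow, norm_pow, ← hA] at h3
  have k1 : (1:ℝ) ≤ k := by exact_mod_cast h2
  have h4 : (((D * k : ℕ) : ℝ) + 1) ^ n ≤ (((D:ℝ) + 1) * k) ^ n := by
    gcongr; push_cast; nlinarith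
  have h5 : ((D:ℝ) + 1) ^ n * ((k:ℝ) ^ n * (M / A) ^ k) * A ^ k = (((D:ℝ) + 1) * k) ^ n * M ^ k := by
    rw [div_pow, mul_pow]; field_simp
  have h6 : 0 < A ^ k := by positivity
  have h7 : A ^ k ≤ (((D:ℝ) + 1) * k) ^ n * M ^ k := h3.trans (by gcongr)
  nlinarith

lemma roots_vp (n : ℕ) (hn : 0 < n) : ∃ u : Fin n → ℂ, (∀ i, ‖u i‖ = 1) ∧ vp n u ^ 2 = (n:ℝ) ^ n := by
  have hω := Complex.isPrimitiveRoot_exp n hn.ne'
  set ω := Complex.exp (2 * Real.pi * Complex.I / n)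
  have h1 : ‖ω‖ = 1 := hω.norm'_eq_one hn.ne'
  have hu : ∀ i : Fin n, ‖ω ^ (i:ℕ)‖ = 1 := fun i => by rw [norm_pow, h1, one_pow]
  refine ⟨fun i => ω ^ (i:ℕ), hu, ?_⟩
  set A := Matrix.vandermonde (fun i : Fin n => ω ^ (i:ℕ)) with hA
  have h2 : A * A.conjTranspose = (n:ℂ) • (1 : Matrix (Fin n) (Fin n) ℂ) := by
    ext i j
    rw [Matrix.mul_apply]
    have hj : (starRingEnd ℂ) (ω ^ (j:ℕ)) * ω ^ (j:ℕ) = 1 := by
      rw [Complex.conj_mul', hu]; simp
    have e : ∀ k : Fin n, A i k * A.conjTranspose k j =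
        (ω ^ (i:ℕ) * (starRingEnd ℂ) (ω ^ (j:ℕ))) ^ (k:ℕ) := fun k => by
      simp [hA, Matrix.vandermonde_apply, mul_pow]
    simp only [e]
    rw [Fin.sum_univ_eq_sum_range (fun k => (ω ^ (i:ℕ) * (starRingEnd ℂ) (ω ^ (j:ℕ))) ^ k)]
    by_cases hij : i = j
    · subst hij
      rw [mul_comm, hj]; simp
    · have hx : ω ^ (i:ℕ) * (starRingEnd ℂ) (ω ^ (j:ℕ)) ≠ 1 := fun h => hij (by
        have : ω ^ (i:ℕ) = ω ^ (j:ℕ) := by
          linear_combination (ω ^ (j:ℕ)) * h - ω ^ (i:ℕ) * hj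
        exact Fin.ext (hω.pow_inj i.2 j.2 this))
      have hp : ∀ i : Fin n, (ω ^ (i:ℕ)) ^ n = 1 := fun i => by
        rw [← pow_mul, mul_comm, pow_mul, hω.pow_eq_one, one_pow]
      rw [geom_sum_eq hx, mul_pow, ← map_pow, hp, hp]
      simp [Matrix.one_apply_ne hij]
  have h3 := congrArg (fun B => ‖Matrix.det B‖) h2
  simp only [Matrix.det_mul, Matrix.det_conjTranspose, norm_mul, norm_star, Matrix.det_smul,
    Matrix.det_one, Fintype.card_fin, norm_pow, Complex.norm_natCast, norm_one, mul_one] at h3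
  rw [vp_eq, pow_two]; exact h3

lemma main (E : Set ℂ) (hE : IsCompact E) (hd : Tendsto (dn E) atTop (𝓝 1)) (n : ℕ) (hn : 2 ≤ n) :
    (n:ℝ) ^ ((1:ℝ) / ((n:ℝ) - 1)) ≤ dn E n := by
  set P : MvPolynomial (Fin n) ℂ :=
    ∏ i, ∏ j ∈ Finset.Ioi i, (MvPolynomial.X j - MvPolynomial.X i) with hP
  have h1 : P.IsHomogeneous (∑ i : Fin n, ∑ _j ∈ Finset.Ioi i, 1) :=
    MvPolynomial.IsHomogeneous.prod _ _ _ fun i _ => MvPolynomial.IsHomogeneous.prod _ _ _
      fun j _ => (MvPolynomial.isHomogeneous_X _ _).sub (MvPolynomial.isHomogeneous_X _ _)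
  have h2 : ∀ w, ‖MvPolynomial.eval w P‖ = vp n w := fun w => by
    simp [hP, vp, norm_prod]
  have hb : BddAbove (vp n '' {w | ∀ i, w i ∈ E}) := by
    have hc : IsCompact {w : Fin n → ℂ | ∀ i, w i ∈ E} := isCompact_pi_infinite fun _ => hE
    exact (hc.image (by unfold vp; fun_prop)).bddAbove
  obtain ⟨u, u1, u2⟩ := roots_vp n (by omega)
  have h3 := torus_le' E hE hd P h1 _ (sup_nonneg E n)
    (fun w hw => by rw [h2]; exact le_csSup hb ⟨w, hw, rfl⟩) u u1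
  rw [h2] at h3
  have n2 : (2:ℝ) ≤ n := by exact_mod_cast hn
  have h4 := Real.rpow_le_rpow (vp_nonneg n u) h3
    (z := (2 : ℝ) / ((n : ℝ) * ((n : ℝ) - 1))) (div_nonneg zero_le_two (by nlinarith))
  refine le_trans (le_of_eq ?_) h4
  rw [div_eq_mul_inv 2, Real.rpow_mul (vp_nonneg n u), Real.rpow_two, u2, ← Real.rpow_natCast,
    ← Real.rpow_mul (by linarith)]
  congr 1
  have : (n:ℝ) - 1 ≠ 0 := by linarith
  field_simp

end Pool.Agent.H.MP_9ec5dc_an
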